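import Pool.Agent.Work.MP_ca14f8_co.AV.All

/-!
The inequality of Morales, Pak and Panova for all permutations which avoid the three patterns
1432, 24153 and 31524.
-/

set_option autoImplicit false
open Classical

namespace Pool.Agent.Results.MP_ca14f8_co.AvoidThree

/-- Let `Υ` be the principal evaluation of Schubert polynomials (by Macdonald's formula, as in the
frozen statement). For every `n`, every permutation `w` of `{0, …, n - 1}` which avoids the
patterns 1432, 24153 and 31524 and every `k`, `Υ (w ⊗ 1^k) ≥ Υ w ^ (k ^ 2)`. -/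
theorem result :
  ∀ Υ : (n : ℕ) → Equiv.Perm (Fin n) → ℚ,
    (∀ (n : ℕ) (w : Equiv.Perm (Fin n)),
      Υ n w =
        (∑ a ∈ (Finset.univ :
              Finset (Fin ((Finset.univ : Finset (Fin n × Fin n)).filter
                  (fun p => p.1 < p.2 ∧ w p.2 < w p.1)).card → Fin n × Fin n)).filter
            (fun a => (∀ i, (a i).2.val = (a i).1.val + 1) ∧
              (List.ofFn (fun i => Equiv.swap (a i).1 (a i).2)).prod = w),
          ∏ i, (((a i).1.val : ℚ) + 1)) /
        (((Finset.univ : Finset (Fin n × Fin n)).filter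
            (fun p => p.1 < p.2 ∧ w p.2 < w p.1)).card.factorial : ℚ)) →
    ∀ (n k : ℕ) (w : Equiv.Perm (Fin n)),
      (∀ a b c d : Fin n, a < b → b < c → c < d → ¬ (w a < w d ∧ w d < w c ∧ w c < w b)) →
      (∀ a b c d e : Fin n, a < b → b < c → c < d → d < e →
        ¬ (w c < w a ∧ w a < w e ∧ w e < w b ∧ w b < w d)) →
      (∀ a b c d e : Fin n, a < b → b < c → c < d → d < e →
        ¬ (w b < w d ∧ w d < w a ∧ w a < w e ∧ w e < w c)) →
      Υ (n * k) (Equiv.permCongr finProdFinEquiv
          (Equiv.prodCongr w (Equiv.refl (Fin k)))) ≥ Υ n w ^ (k ^ 2) := by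
  intro Υ hΥ n k w h1432 h24153 h31524
  have h1 : ∀ (n : ℕ) (w : Equiv.Perm (Fin n)),
      Υ n w = Pool.Agent.Work.MP_ca14f8_co.Ups w := fun n w => hΥ n w
  rw [h1, h1]
  exact Pool.Agent.Work.MP_ca14f8_co.AV.THM_holds n k w ⟨h1432, h24153, h31524⟩

end Pool.Agent.Results.MP_ca14f8_co.AvoidThree
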