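import Pool.Agent.Work.MP_ca14f8_co.L3.All

/-!
The exponent `⌈3 k ^ 2 / 4⌉` for the principal evaluations of `w ⊗ 1^k`, for all permutations `w`.
-/

set_option autoImplicit false
open Classical

namespace Pool.Agent.Results.MP_ca14f8_co.ThreeQuarters

/-- Let `Υ` be the principal evaluation of Schubert polynomials (by Macdonald's formula, as in the
frozen statement). For every `n`, every permutation `w` of `{0, …, n - 1}` and every `k`,
`Υ (w ⊗ 1^k) ≥ Υ w ^ ⌈3 k ^ 2 / 4⌉`. -/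
theorem result :
  ∀ Υ : (n : ℕ) → Equiv.Perm (Fin n) → ℚ,
    (∀ (n : ℕ) (w : Equiv.Perm (Fin n)),
      Υ n w =
        (∑ a ∈ (Finset.univ :
              Finset (Fin ((Finset.univ : Finset (Fin n × Fin n)).filter
                  (fun p => p.1 < p.2 ∧ w p.2 < w p.1)).card → Fin n × Fin n)).filter
            (fun a => (∀ i, (a i).2.val = (a i).1.val + 1) ∧
              (List.ofFn (fun i => Equiv.swap (a i).1 (a i).2)).prod = w),
          ∏ i, (((a i).1.val : ℚ) + 1)) /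
        (((Finset.univ : Finset (Fin n × Fin n)).filter
            (fun p => p.1 < p.2 ∧ w p.2 < w p.1)).card.factorial : ℚ)) →
    ∀ (n k : ℕ) (w : Equiv.Perm (Fin n)),
      Υ (n * k) (Equiv.permCongr finProdFinEquiv
          (Equiv.prodCongr w (Equiv.refl (Fin k)))) ≥ Υ n w ^ ⌈(3 * (k : ℚ) ^ 2 / 4)⌉₊ := by
  intro Υ hΥ n k w
  have h1 : ∀ (n : ℕ) (w : Equiv.Perm (Fin n)),
      Υ n w = Pool.Agent.Work.MP_ca14f8_co.Ups w := fun n w => hΥ n w
  rw [h1, h1]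
  have h2 : ⌈(3 * (k : ℚ) ^ 2 / 4)⌉₊ = (3 * k ^ 2 + 3) / 4 := by
    have h3 : (3 * k ^ 2 + 3) / 4 * 4 ≤ 3 * k ^ 2 + 3 := Nat.div_mul_le_self _ _
    have h4 : 3 * k ^ 2 ≤ (3 * k ^ 2 + 3) / 4 * 4 := by omega
    apply le_antisymm
    · rw [Nat.ceil_le, div_le_iff₀ (by norm_num)]
      exact_mod_cast h4
    · have h5 : (3 * (k : ℚ) ^ 2) / 4 ≤ (⌈(3 * (k : ℚ) ^ 2 / 4)⌉₊ : ℚ) := Nat.le_ceil _
      rw [div_le_iff₀ (by norm_num)] at h5
      have h6 : 3 * k ^ 2 ≤ ⌈(3 * (k : ℚ) ^ 2 / 4)⌉₊ * 4 := by exact_mod_cast h5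
      omega
  rw [h2]
  exact Pool.Agent.Work.MP_ca14f8_co.L3.THM_holds n k w

end Pool.Agent.Results.MP_ca14f8_co.ThreeQuarters
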